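import Pool.Agent.K7.H5.V.Gen10
import Pool.Agent.K7.H5.V.Ex2

/-!
# Verra threefolds over `ℚ`: openness of the closure of the rational points, weak weak approximation

Let `F(x, y) = ∑ c_ijkl x_i x_j y_k y_l` be a form of bidegree `(2, 2)` in `3 + 3` variables with
integral coefficients and `X` the threefold `F = 0` in `ℙ² × ℙ²`. A general `X` is a smooth Fano
threefold (a Verra threefold), hence rationally connected, with trivial Brauer group modulo constants,
and the conjecture implies that `X(ℚ)`, if it is not empty, is dense in the space of the adelic
points. Both projections are conic bundles over `ℙ²` with nonsplit fibres over curves of degree six,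
and the fibration method does not apply (it applies to forms in more variables).

**Theorem.** Let `X` be general (outside of the zero set of a fixed nonzero polynomial in the
coefficients) with `X(ℚ) ≠ ∅`. Then the closure of `X(ℚ)` is open in the space
`X(𝔸_ℚ) = ∏ X(ℚ_v)` of the adelic points, the product over all the places. An adelic point belongs to
the closure if and only if it can be approximated at a fixed finite set of places, and weak weak
approximation holds: `X(ℚ)` is dense in the product of the `X(ℚ_p)` for any finitely many large `p`.

Idea of the proof. The closure of `X(ℚ)` is stable under reflections in the conics of the two
projections at one place. For `T = (a, b)` and `Q = (a*, b*)` in `X` over a field consider the chains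
`(a, b), (α, b), (α, β), (a*, β), (a*, b*)` of points of `X`, where `α` is on the conic
`F(·, b) = 0`, `β` is on the conic `F(a*, ·) = 0`, and `F(α, β) = 0`; they are parametrized by a
curve of bidegree `(4, 4)` in the parameters of the two conics. For the general pair of points of the
general `X` this curve is absolutely irreducible, as one sees from an example. By the theorems of
Bertini, Noether and Weil it has nondegenerate points modulo all large `p` if `T` is outside of a
proper closed subset, and one can leave this subset modulo all large `p` by reflections. The chains
are lifted to the `p`-adic numbers, and Hensel's lemma connects a general rational point `Q` with its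
residue disc. So for all large `p` all the points of `X(ℚ_p)` are connected with `Q` by reflections,
and only finitely many places matter; for these one has the local openness (`BidegreeTwoTwo`).
-/

set_option autoImplicit false

namespace Pool.Agent.Results.MP_12adaf_nt.AdelicOpenness

open Pool.Agent.R70.BT Pool.Agent.K7.H5.V

/-- There is a nonzero polynomial `Δ` with integral coefficients in the coefficients `c_ijkl` such
that for all forms `F = ∑ c_ijkl x_i x_j y_k y_l` with integral coefficients, which are irreducible
over `ℤ` (as polynomials), satisfy `Δ(c) ≠ 0` and have a nontrivial zero `(x, y)`, `x ≠ 0`, `y ≠ 0`:
the closure of the set of the rational points of `X : F = 0` is open in the space of the adelic points,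
for a suitable `N` an adelic point belongs to this closure if and only if it can be approximated by
rational points at the real place and at the primes `p < N`, and the rational points are dense in the
product of the `X(ℚ_p)`, `p ∈ s`, for all finite sets `s` of primes `p ≥ N`. -/
theorem result :
    ∃ Δ : MvPolynomial Ic ℤ, Δ ≠ 0 ∧ ∀ c : Cf ℤ, Irreducible (FP c) →
      MvPolynomial.eval (coeffs c) Δ ≠ 0 →
      (∃ P : Pr ℤ, P.1 ≠ 0 ∧ P.2 ≠ 0 ∧ form c P.1 P.2 = 0) → OpenClosure c :=
  main_gen agc_cS nzc_cS

end Pool.Agent.Results.MP_12adaf_nt.AdelicOpenness
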