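import Pool.Agent.K7.H7.QG.Places

/-!
# The closure of the rational points of cubic sections of Grassmannians

Let `K` be a field of characteristic zero, for example a number field, and `v_i` finitely many
pairwise inequivalent nontrivial absolute values of `K`, with the completions `K_i`. Let `X` be the
intersection of the Grassmannian `Gr(m, m + n)`, in its Plücker embedding, with `r` hyperplanes and a
cubic hypersurface. We work in a standard affine chart, where the points of the Grassmannian are the
`m × n` matrices `x` and the Plücker coordinates are up to sign the minors of `x`. If `X` is smooth of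
the expected dimension and `r + 3 < m + n`, then it is a Fano variety, hence rationally connected; for
`m = n = 2`, `r = 0` it is the intersection of a cubic and of a quadric, a Fano threefold.

The lines in the Grassmannian through the point `x` are the lines `x + s u vᵀ`. Those which lie in the
hyperplanes and have contact of order at least three with the cubic at a point `x` of `X` are given in
`ℙ^(m-1) × ℙ^(n-1)` by `r + 1` equations of bidegree `(1, 1)` and one of bidegree `(2, 2)`.

**Theorem.** Let `T = (T_i)` be a limit of `K`-rational points of `X` in the product of the `X(K_i)`.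
Suppose that for all `i` the lines of this kind over `K_i`, with contact of order exactly three with
the cubic at `T_i`, and which are simple solutions of these equations such that the `r + 1` bilinear
equations are independent also for fixed `u`, span the tangent space of `X` at `T_i`. Then the closure
of `X(K)` is a neighbourhood of `T` in the product of the `X(K_i)`.

Idea of the proof. Let `x` be a `K`-rational point close to `T`. The lines `x + s u vᵀ` in the
hyperplanes, and tangent to the cubic at `x`, are given by linear equations for `v` if `u` is fixed, so
they have weak approximation; such a line meets `X` in one further point, which is rational. So the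
closure of the rational points is stable under the replacement of a local point by the further points
of such lines, which can be chosen independently at the places. When the line approaches one with
contact of order three, then the further point approaches `T_i`; by moving successively along lines
close to sufficiently many such lines, which span the tangent space, one can reach all the points of a
neighbourhood of `T_i`, by the implicit function theorem.
-/

set_option autoImplicit false

namespace Pool.Agent.Results.MP_12adaf_nt.GrassmannianSections

open Topology

/-- The indices of the minors of an `m × n` matrix: the size `k ≤ m` of the minor, and the rows and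
columns (in any order; if a row or a column is repeated, then the minor is zero). -/
abbrev Index (m n : ℕ) : Type := (k : Fin (m + 1)) × (Fin k.1 → Fin m) × (Fin k.1 → Fin n)

/-- The minors of the matrix `x`, including the empty minor `1`: up to sign these are the Plücker
coordinates of the point `x` of the Grassmannian. -/
def plucker {K : Type} [Field K] {m n : ℕ} (x : Fin m → Fin n → K) (I : Index m n) : K :=
  (Matrix.of fun i j => x (I.2.1 i) (I.2.2 j)).det

/-- The change of the minors if one adds the matrix `u vᵀ` to `x`. On the line `x + s u vᵀ` the minors
are `plucker x + s * change x u v`. -/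
def change {K : Type} [Field K] {m n : ℕ} (x : Fin m → Fin n → K) (u : Fin m → K) (v : Fin n → K)
    (I : Index m n) : K :=
  plucker (fun i j => x i j + u i * v j) I - plucker x I

/-- The differential of the minors at `x` in the direction of the matrix `y`. -/
def dPlucker {K : Type} [Field K] {m n : ℕ} (x y : Fin m → Fin n → K) (I : Index m n) : K :=
  ∑ i, ∑ j, y i j * change x (Pi.single i 1) (Pi.single j 1) I

/-- The linear form with the coefficients `l`. -/
def linear {K : Type} [Field K] {κ : Type} [Fintype κ] (l p : κ → K) : K := ∑ I, l I * p I

/-- The polarization `C(p, q, w)` of the cubic form `C(p, p, p)` with the coefficients `c`. -/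
def cubic {K : Type} [Field K] {κ : Type} [Fintype κ] (c : κ → κ → κ → K) (p q w : κ → K) : K :=
  ∑ I, ∑ J, ∑ M, c I J M * p I * q J * w M

/-- The coefficients of the cubic form are symmetric. -/
def IsSymmetric {K κ : Type} (c : κ → κ → κ → K) : Prop :=
  ∀ I J M, c J I M = c I J M ∧ c I M J = c I J M

/-- The point `x` of the Grassmannian is on the hyperplanes and on the cubic. -/
def OnX {K : Type} [Field K] {m n r : ℕ} (l : Fin r → Index m n → K)
    (c : Index m n → Index m n → Index m n → K) (x : Fin m → Fin n → K) : Prop :=
  (∀ j, linear (l j) (plucker x) = 0) ∧ cubic c (plucker x) (plucker x) (plucker x) = 0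

/-- The line `x + s u vᵀ` lies in the hyperplanes, has contact of order exactly three with the cubic
at `x`, and `(u, v)` is a simple solution of these equations, such that the differentials of the
linear forms and of the cubic are independent also on the directions `u v'ᵀ` with the given `u`. -/
structure ContactLine {K : Type} [Field K] {m n r : ℕ} (l : Fin r → Index m n → K)
    (c : Index m n → Index m n → Index m n → K) (x : Fin m → Fin n → K) (u : Fin m → K)
    (v : Fin n → K) : Prop where
  inHyperplanes : ∀ j, linear (l j) (change x u v) = 0
  tangent : cubic c (plucker x) (plucker x) (change x u v) = 0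
  threefold : cubic c (plucker x) (change x u v) (change x u v) = 0
  exact : cubic c (change x u v) (change x u v) (change x u v) ≠ 0
  independent : ∀ (a : Fin r → K) (b : K), ∃ v' : Fin n → K,
    (∀ j, linear (l j) (change x u v') = a j) ∧
      cubic c (plucker x) (plucker x) (change x u v') = b
  simple : ∀ (a : Fin r → K) (b e : K), ∃ (u' : Fin m → K) (v' : Fin n → K),
    (∀ j, linear (l j) (change x u' v + change x u v') = a j) ∧
      cubic c (plucker x) (plucker x) (change x u' v + change x u v') = b ∧
      cubic c (plucker x) (change x u v) (change x u' v + change x u v') = e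

/-- There are such lines, and they span the tangent space. -/
def SpannedByContactLines {K : Type} [Field K] {m n r : ℕ} (l : Fin r → Index m n → K)
    (c : Index m n → Index m n → Index m n → K) (x : Fin m → Fin n → K) : Prop :=
  (∃ u v, ContactLine l c x u v) ∧
    ∀ y : Fin m → Fin n → K, (∀ j, linear (l j) (dPlucker x y) = 0) →
      cubic c (plucker x) (plucker x) (dPlucker x y) = 0 →
      y ∈ Submodule.span K {z | ∃ u v, ContactLine l c x u v ∧ z = fun i j => u i * v j}

/-- The `K`-rational points, in the product of the points over the completions. -/
def RationalPoints {K : Type} [Field K] {m n r : ℕ} (l : Fin r → Index m n → K)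
    (c : Index m n → Index m n → Index m n → K) {ι : Type} (v : ι → AbsoluteValue K ℝ) :
    Set (∀ i, Fin m → Fin n → (v i).Completion) :=
  {S | ∃ x : Fin m → Fin n → K, OnX l c x ∧ S = fun i a b => (x a b : (v i).Completion)}

/-- The image of the linear forms over the completion. -/
noncomputable def image₁ {K : Type} [Field K] {m n r : ℕ} (l : Fin r → Index m n → K)
    (v : AbsoluteValue K ℝ) : Fin r → Index m n → v.Completion :=
  fun j I => (l j I : v.Completion)

/-- The image of the cubic form over the completion. -/
noncomputable def image₃ {K : Type} [Field K] {m n : ℕ} (c : Index m n → Index m n → Index m n → K)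
    (v : AbsoluteValue K ℝ) : Index m n → Index m n → Index m n → v.Completion :=
  fun I J M => (c I J M : v.Completion)

section aux

open Pool.Agent.K7.H7.QG

variable {L : Type} [NontriviallyNormedField L] {m n r : ℕ} {l : Fin r → Index m n → L}
  {c : Index m n → Index m n → Index m n → L}

theorem onX_iff {K : Type} [Field K] {l : Fin r → Index m n → K}
    {c : Index m n → Index m n → Index m n → K} (x : Fin m → Fin n → K) :
    OnX l c x ↔ tc l c (pl x) (pl x) = 0 := by
  rw [tc_zero_iff]
  rfl

theorem good_of (hc : SymT c) (h6 : (6 : L) ≠ 0) {x : Fin m → Fin n → L}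
    {u : Fin m → L} {v : Fin n → L} (h : ContactLine l c x u v) : Good (ld l hc) x (u, v) := by
  refine ⟨?_, ?_, h.exact, fun z => ?_, fun z => ?_⟩
  · exact (tc_zero_iff _ _ _ _).2 ⟨h.inHyperplanes, h.tangent⟩
  · change 3 * cubic c (plucker x) (change x u v) (change x u v) = 0
    rw [h.threefold, mul_zero]
  · obtain ⟨v', h1, h2⟩ := h.independent (fun j => z j.castSucc) (z (Fin.last r))
    refine ⟨v', ?_⟩
    change tc l c (pl x) (dl x u v') = z
    funext i
    refine Fin.lastCases ?_ (fun j => ?_) i
    · rw [tc_last]
      exact h2
    · rw [tc_castSucc]
      exact h1 j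
  · obtain ⟨u', v', h1, h2, h4⟩ := h.simple (fun j => z.1 j.castSucc) (z.1 (Fin.last r)) (z.2 / 6)
    refine ⟨(u', v'), ?_⟩
    rw [fderiv_hA]
    refine Prod.ext ?_ ?_
    · change tc l c (pl x) (dl x u' v + dl x u v') = z.1
      funext i
      refine Fin.lastCases ?_ (fun j => ?_) i
      · rw [tc_last]
        exact h2
      · rw [tc_castSucc]
        exact h1 j
    · change 6 * cubic c (plucker x) (change x u v) (change x u' v + change x u v') = z.2
      rw [h4]
      field_simp

theorem spanned_of (hc : SymT c) (h3 : (3 : L) ≠ 0) (h6 : (6 : L) ≠ 0) {x : Fin m → Fin n → L}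
    (h : SpannedByContactLines l c x) : Spanned (ld l hc) x := by
  obtain ⟨⟨u, v, huv⟩, hs⟩ := h
  refine ⟨⟨(u, v), good_of hc h6 huv⟩, fun y hy => ?_⟩
  rw [fderiv_F] at hy
  have e1 : ∀ j, linear (l j) (dPlucker x y) = 0 := fun j => by
    have e2 := congrFun hy j.castSucc
    rw [Fin.snoc_castSucc] at e2
    exact e2
  have e2 : cubic c (plucker x) (plucker x) (dPlucker x y) = 0 := by
    have e3 := congrFun hy (Fin.last r)
    rw [Fin.snoc_last] at e3
    exact (mul_eq_zero.1 e3).resolve_left h3
  refine Submodule.span_mono ?_ (hs y e1 e2)
  rintro _ ⟨u, v, huv, rfl⟩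
  exact ⟨(u, v), good_of hc h6 huv, rfl⟩

end aux

/-- **Main result.** -/
theorem result {K : Type} [Field K] [CharZero K] (m n r : ℕ)
    -- the hyperplanes and the cubic
    (l : Fin r → Index m n → K) (c : Index m n → Index m n → Index m n → K) (hc : IsSymmetric c)
    -- the places
    (ι : Type) [Finite ι] [Nonempty ι] (v : ι → AbsoluteValue K ℝ)
    (hv : ∀ i, (v i).IsNontrivial) (hvw : Pairwise fun i j => ¬(v i).IsEquiv (v j))
    -- a limit of rational points
    (T : ∀ i, Fin m → Fin n → (v i).Completion) (hT : T ∈ closure (RationalPoints l c v))
    -- the contact lines span the tangent spaces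
    (hspan : ∀ i, SpannedByContactLines (image₁ l (v i)) (image₃ c (v i)) (T i)) :
    -- all the local points close to `T` are limits of rational points
    ∃ U ∈ 𝓝 T, ∀ x ∈ U, (∀ i, OnX (image₁ l (v i)) (image₃ c (v i)) (x i)) →
      x ∈ closure (RationalPoints l c v) := by
  let inst : ∀ i, NontriviallyNormedField (v i).Completion := fun i =>
    Pool.Agent.K7.H7.QG.nnf (hv i)
  have hc' : Pool.Agent.K7.H7.QG.SymT c := hc
  have h0 : ∀ (i : ι) (k : ℕ), k ≠ 0 → (k : (v i).Completion) ≠ 0 := by
    intro i k hk h
    have h1 : Pool.Agent.K7.H7.QG.cmb (v i) (k : K) = 0 := by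
      rw [map_natCast]
      exact h
    exact hk (by exact_mod_cast (map_eq_zero (Pool.Agent.K7.H7.QG.cmb (v i))).1 h1)
  have e1 : RationalPoints l c v = Pool.Agent.K7.H7.QG.pts (Pool.Agent.K7.H7.QG.kd l hc')
      (fun i => Pool.Agent.K7.H7.QG.cmb (v i)) := by
    ext S
    constructor
    · rintro ⟨x, hx, rfl⟩
      exact ⟨x, (onX_iff x).1 hx, rfl⟩
    · rintro ⟨x, hx, rfl⟩
      exact ⟨x, (onX_iff x).2 hx, rfl⟩
  rw [e1] at hT ⊢
  obtain ⟨U, hU, h⟩ := Pool.Agent.K7.H7.QG.interior_of_spanned
    (fun i => Pool.Agent.K7.H7.QG.ld (image₁ l (v i))
      (Pool.Agent.K7.H7.QG.symT_map (Pool.Agent.K7.H7.QG.cmb (v i)) hc'))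
    (fun i => Pool.Agent.K7.H7.QG.cpt (Pool.Agent.K7.H7.QG.cmb (v i)) l hc')
    (Pool.Agent.K7.H7.QG.dense_cmb hv hvw) hT
    (fun i => spanned_of _ (by exact_mod_cast h0 i 3 (by norm_num))
      (by exact_mod_cast h0 i 6 (by norm_num)) (hspan i))
  exact ⟨U, hU, fun x hx h1 => h x hx fun i => (onX_iff (x i)).1 (h1 i)⟩

end Pool.Agent.Results.MP_12adaf_nt.GrassmannianSections
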