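import Pool.Agent.K7.H7.QF.QC
import Pool.Agent.K7.H7.QF.Places

/-!
# The closure of the rational points of intersections of a quadric and a cubic

Let `X` be the intersection of a quadric `Q = 0` and of a cubic hypersurface `C = 0` over `ℚ` in
`N ≥ 8` variables; if it is a smooth complete intersection, then it is a Fano variety, hence rationally
connected. Let `T = (T_v)` be a limit of rational points of `X` in the product of `X(ℝ)` and of
finitely many `X(ℚ_p)`.

The lines through the point `T_v` of `X` which lie on the quadric and which have contact of order at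
least three with the cubic at `T_v` are given by the intersection of two quadrics in the projective
space `ℙ^(N-4)` of the tangent directions (for `N = 8` this is a del Pezzo surface of degree four).

**Theorem.** Suppose that for all the places `v` those of these lines defined over `ℚ_v` which have
contact of order exactly three with the cubic and which are simple points of this intersection span
the tangent space of `X` at `T_v`, and that for one place `v` the restriction of the quadratic form
`Q` to the tangent space has rank at least five. Then the closure of `X(ℚ)` is a neighbourhood of `T`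
in the product of `X(ℝ)` and of the `X(ℚ_p)`.

Idea of the proof. Let `x` be a rational point close to `T`. The lines through `x` which lie on the
quadric and are tangent to the cubic correspond to the rational points of a quadric of rank at least
five, and this quadric has weak approximation by the theorems of Meyer and Hasse-Minkowski; such a line
meets `X` in one further point, which is rational. So the closure of the rational points is stable
under the replacement of a local point by the further points of such lines, which can be chosen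
independently at the places. When the line approaches one with contact of order three, then the
further point approaches `T_v`; by moving successively along lines close to `N` such lines which span
the tangent space, one can reach all the points of a neighbourhood of `T_v`, by the implicit function
theorem.

(In the formal statement we work with the affine cone over `X`.)
-/

set_option autoImplicit false

namespace Pool.Agent.Results.MP_12adaf_nt.QuadricAndCubic

open Topology Matrix

/-- The bilinear form `Q(x, y)` of the quadratic form `Q(x, x) = ∑ b_{ij} x_i x_j`. -/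
def bil {K : Type} [Field K] {N : ℕ} (b : Fin N → Fin N → K) (x y : Fin N → K) : K :=
  ∑ i, ∑ j, b i j * x i * y j

/-- The polarization `C(x, y, z)` of the cubic form `C(x, x, x) = ∑ d_{ijk} x_i x_j x_k`. -/
def tri {K : Type} [Field K] {N : ℕ} (d : Fin N → Fin N → Fin N → K) (x y z : Fin N → K) : K :=
  ∑ i, ∑ j, ∑ k, d i j k * x i * y j * z k

/-- The coefficients of the quadratic form are symmetric. -/
def IsSymmetric₂ {K : Type} {N : ℕ} (b : Fin N → Fin N → K) : Prop := ∀ i j, b j i = b i j

/-- The coefficients of the cubic form are symmetric. (Every cubic form in characteristic zero has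
exactly one system of symmetric coefficients.) -/
def IsSymmetric₃ {K : Type} {N : ℕ} (d : Fin N → Fin N → Fin N → K) : Prop :=
  ∀ i j k, d j i k = d i j k ∧ d i k j = d i j k

/-- The line through `T` in the direction `u` lies on the quadric, it has contact of order exactly
three with the cubic at `T`, and `u` is a simple solution of the equations `Q(T, u) = 0`,
`Q(u, u) = 0`, `C(T, T, u) = 0`, `C(T, u, u) = 0`: their differentials with respect to `u`, which are
up to nonzero factors the linear forms `Q(T, w)`, `Q(u, w)`, `C(T, T, w)`, `C(T, u, w)`, are linearly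
independent, that is, they take arbitrary values simultaneously. -/
structure ThreefoldLine {K : Type} [Field K] {N : ℕ} (b : Fin N → Fin N → K)
    (d : Fin N → Fin N → Fin N → K) (T u : Fin N → K) : Prop where
  tangent : bil b T u = 0
  inQuadric : bil b u u = 0
  tangentCubic : tri d T T u = 0
  threefold : tri d T u u = 0
  exact : tri d u u u ≠ 0
  simple : ∀ a₁ a₂ a₃ a₄ : K, ∃ w, bil b T w = a₁ ∧ bil b u w = a₂ ∧ tri d T T w = a₃ ∧
    tri d T u w = a₄

/-- There are such lines, and they span, together with `T`, the tangent space at `T`. -/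
def SpannedByThreefoldLines {K : Type} [Field K] {N : ℕ} (b : Fin N → Fin N → K)
    (d : Fin N → Fin N → Fin N → K) (T : Fin N → K) : Prop :=
  (∃ u, ThreefoldLine b d T u) ∧
    ∀ w, bil b T w = 0 → tri d T T w = 0 →
      w ∈ Submodule.span K (insert T {u | ThreefoldLine b d T u})

/-- The quadratic form `Q` on the tangent space at `T` has rank at least five. -/
def RankAtLeastFive {K : Type} [Field K] {N : ℕ} (b : Fin N → Fin N → K)
    (d : Fin N → Fin N → Fin N → K) (T : Fin N → K) : Prop :=
  ∃ w : Fin 5 → Fin N → K, (∀ i, bil b T (w i) = 0 ∧ tri d T T (w i) = 0) ∧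
    (Matrix.of fun i j => bil b (w i) (w j)).det ≠ 0

/-- The rational points of the cone over the variety, in the product of the real and of the
`p i`-adic affine spaces. -/
def RationalPoints {N : ℕ} (b : Fin N → Fin N → ℚ) (d : Fin N → Fin N → Fin N → ℚ) {ι : Type}
    (p : ι → ℕ) [∀ i, Fact (p i).Prime] : Set ((Fin N → ℝ) × ∀ i, Fin N → ℚ_[p i]) :=
  {S | ∃ x : Fin N → ℚ, bil b x x = 0 ∧ tri d x x x = 0 ∧
    S = (fun j => (x j : ℝ), fun i j => (x j : ℚ_[p i]))}

/-- The image of the coefficients in a field which contains the rational numbers. -/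
def image₂ {N : ℕ} (b : Fin N → Fin N → ℚ) (L : Type) [Field L] : Fin N → Fin N → L :=
  fun i j => (b i j : L)

/-- The image of the coefficients in a field which contains the rational numbers. -/
def image₃ {N : ℕ} (d : Fin N → Fin N → Fin N → ℚ) (L : Type) [Field L] :
    Fin N → Fin N → Fin N → L :=
  fun i j k => (d i j k : L)

section aux

variable {L : Type} [NontriviallyNormedField L] [CharZero L] {N : ℕ}
  {b : Fin N → Fin N → L} {d : Fin N → Fin N → Fin N → L}

theorem good_of (hb : Pool.Agent.K7.H7.QF.Sym2 b) (hd : Pool.Agent.K7.H7.QF.Sym3 d)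
    {T u : Fin N → L} (h : ThreefoldLine b d T u) :
    Pool.Agent.K7.H7.QF.Good (Pool.Agent.K7.H7.QF.qc hb hd) T u := by
  refine ⟨?_, ?_, ?_, h.exact, ?_⟩
  · rw [Pool.Agent.K7.H7.QF.qc_H]
    funext k
    fin_cases k
    · exact h.tangent
    · exact h.tangentCubic
  · rw [Pool.Agent.K7.H7.QF.qc_M]
    exact h.inQuadric
  · change 3 * tri d T u u = 0
    rw [h.threefold, mul_zero]
  · rintro ⟨z1, z2, z3⟩
    obtain ⟨w, h1, h2, h3, h4⟩ := h.simple (z1 0) z2 (z1 1) (z3 / 6)
    refine ⟨w, Prod.ext ?_ (Prod.ext ?_ ?_)⟩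
    · change (Pool.Agent.K7.H7.QF.qc hb hd).H T *ᵥ w = z1
      rw [Pool.Agent.K7.H7.QF.qc_H]
      funext k
      fin_cases k
      · exact h1
      · exact h3
    · change u ⬝ᵥ (Pool.Agent.K7.H7.QF.qc hb hd).M T *ᵥ w = z2
      rw [Pool.Agent.K7.H7.QF.qc_M]
      exact h2
    · change 6 * tri d T u w = z3
      rw [h4]
      field_simp

theorem spanned_of (hb : Pool.Agent.K7.H7.QF.Sym2 b) (hd : Pool.Agent.K7.H7.QF.Sym3 d)
    {T : Fin N → L} (h : SpannedByThreefoldLines b d T) :
    Pool.Agent.K7.H7.QF.Spanned (Pool.Agent.K7.H7.QF.qc hb hd) T := by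
  refine ⟨?_, fun w hw => ?_⟩
  · obtain ⟨u, hu⟩ := h.1
    exact ⟨u, good_of hb hd hu⟩
  · rw [Pool.Agent.K7.H7.QF.fderiv_qc] at hw
    have h1 : 2 * bil b T w = 0 := congrFun hw 0
    have h2 : 3 * tri d T T w = 0 := congrFun hw 1
    have h3 : bil b T w = 0 := (mul_eq_zero.1 h1).resolve_left (by norm_num)
    have h4 : tri d T T w = 0 := (mul_eq_zero.1 h2).resolve_left (by norm_num)
    exact Submodule.span_mono (Set.insert_subset_insert fun u hu => good_of hb hd hu) (h.2 w h3 h4)

omit [CharZero L] in
theorem rk_of (hb : Pool.Agent.K7.H7.QF.Sym2 b) (hd : Pool.Agent.K7.H7.QF.Sym3 d)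
    {T : Fin N → L} (h : SpannedByThreefoldLines b d T) (hr : RankAtLeastFive b d T) :
    Pool.Agent.K7.H7.QF.Rk (Pool.Agent.K7.H7.QF.qc hb hd) T := by
  obtain ⟨w, hw1, hw2⟩ := hr
  refine ⟨fun z => ?_, w, fun i => ?_, ?_⟩
  · obtain ⟨u, hu⟩ := h.1
    obtain ⟨y, h1, -, h3, -⟩ := hu.simple (z 0) 0 (z 1) 0
    refine ⟨y, ?_⟩
    change (Pool.Agent.K7.H7.QF.qc hb hd).H T *ᵥ y = z
    rw [Pool.Agent.K7.H7.QF.qc_H]
    funext k
    fin_cases k
    · exact h1
    · exact h3
  · rw [Pool.Agent.K7.H7.QF.qc_H]
    funext k
    fin_cases k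
    · exact (hw1 i).1
    · exact (hw1 i).2
  · simp_rw [Pool.Agent.K7.H7.QF.qc_M]
    exact hw2

end aux

/-- **Main result.** -/
theorem result (N : ℕ) (b : Fin N → Fin N → ℚ) (hb : IsSymmetric₂ b)
    (d : Fin N → Fin N → Fin N → ℚ) (hd : IsSymmetric₃ d)
    -- a finite set of primes
    (ι : Type) [Finite ι] (p : ι → ℕ) [∀ i, Fact (p i).Prime] (hp : Function.Injective p)
    -- a limit of rational points
    (T : (Fin N → ℝ) × ∀ i, Fin N → ℚ_[p i]) (hT : T ∈ closure (RationalPoints b d p))
    -- the lines with contact of order three span the tangent spaces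
    (hreal : SpannedByThreefoldLines (image₂ b ℝ) (image₃ d ℝ) T.1)
    (hpadic : ∀ i, SpannedByThreefoldLines (image₂ b ℚ_[p i]) (image₃ d ℚ_[p i]) (T.2 i))
    -- the rank of the quadratic form on the tangent space of one of the places is at least five
    (hrank : RankAtLeastFive (image₂ b ℝ) (image₃ d ℝ) T.1 ∨
      ∃ i, RankAtLeastFive (image₂ b ℚ_[p i]) (image₃ d ℚ_[p i]) (T.2 i)) :
    -- all the local points close to `T` are limits of rational points
    ∃ U ∈ 𝓝 T, ∀ x ∈ U,
      (bil (image₂ b ℝ) x.1 x.1 = 0 ∧ tri (image₃ d ℝ) x.1 x.1 x.1 = 0) →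
      (∀ i, bil (image₂ b ℚ_[p i]) (x.2 i) (x.2 i) = 0 ∧
        tri (image₃ d ℚ_[p i]) (x.2 i) (x.2 i) (x.2 i) = 0) →
      x ∈ closure (RationalPoints b d p) := by
  have e1 : RationalPoints b d p =
      Pool.Agent.K7.H7.QF.ratPts p (Pool.Agent.K7.H7.QF.qc hb hd) := by
    ext S
    constructor
    · rintro ⟨x, hx, hx', rfl⟩
      refine ⟨x, funext fun k => ?_, rfl⟩
      fin_cases k
      · exact hx
      · exact hx'
    · rintro ⟨x, hx, rfl⟩
      exact ⟨x, congrFun hx 0, congrFun hx 1, rfl⟩
  rw [e1] at hT ⊢
  have bR : Pool.Agent.K7.H7.QF.Sym2 (image₂ b ℝ) :=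
    Pool.Agent.K7.H7.QF.sym2_map (Rat.castHom ℝ) hb
  have dR : Pool.Agent.K7.H7.QF.Sym3 (image₃ d ℝ) :=
    Pool.Agent.K7.H7.QF.sym3_map (Rat.castHom ℝ) hd
  have bp : ∀ i, Pool.Agent.K7.H7.QF.Sym2 (image₂ b ℚ_[p i]) := fun i =>
    Pool.Agent.K7.H7.QF.sym2_map (Rat.castHom ℚ_[p i]) hb
  have dp : ∀ i, Pool.Agent.K7.H7.QF.Sym3 (image₃ d ℚ_[p i]) := fun i =>
    Pool.Agent.K7.H7.QF.sym3_map (Rat.castHom ℚ_[p i]) hd
  obtain ⟨U, hU, h⟩ := Pool.Agent.K7.H7.QF.interior_concrete p hp
    (D0 := Pool.Agent.K7.H7.QF.qc hb hd) (DR := Pool.Agent.K7.H7.QF.qc bR dR)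
    (Dp := fun i => Pool.Agent.K7.H7.QF.qc (bp i) (dp i))
    (Pool.Agent.K7.H7.QF.ana_qc bR dR) (fun i => Pool.Agent.K7.H7.QF.ana_qc (bp i) (dp i))
    (Pool.Agent.K7.H7.QF.compat_qc (Rat.castHom ℝ) hb hd)
    (fun i => Pool.Agent.K7.H7.QF.compat_qc (Rat.castHom ℚ_[p i]) hb hd) hT
    (spanned_of bR dR hreal) (fun i => spanned_of (bp i) (dp i) (hpadic i))
    (hrank.imp (rk_of bR dR hreal) (fun ⟨i, hi⟩ => ⟨i, rk_of (bp i) (dp i) (hpadic i) hi⟩))
  refine ⟨U, hU, fun x hx h1 h2 => h x hx (funext fun k => ?_) fun i => funext fun k => ?_⟩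
  · fin_cases k
    · exact h1.1
    · exact h1.2
  · fin_cases k
    · exact (h2 i).1
    · exact (h2 i).2

end Pool.Agent.Results.MP_12adaf_nt.QuadricAndCubic
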