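import Pool.Agent.K7.H7.QF.Quartic
import Pool.Agent.K7.H7.QF.Places

/-!
# The closure of the rational points of quartic hypersurfaces in at least seven variables

Let `X` be a quartic hypersurface `F = 0` over `ℚ` in `N ≥ 7` variables; if it is smooth, then it is a
Fano variety, hence rationally connected. Let `T = (T_v)` be a limit of rational points of `X` in the
product of `X(ℝ)` and of finitely many `X(ℚ_p)`.

For a point `T_v` of `X` the lines through `T_v` which have contact of order at least four with `X` at
`T_v` are given by the intersection of a quadric and a cubic in the projective space `ℙ^(N-3)` of the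
tangent directions (for `N = 7` this is a `K3` surface).

**Theorem.** Suppose that for all the places `v` the lines defined over `ℚ_v` which have contact of
order exactly four with `X` at `T_v` and which are simple points of this intersection span the tangent
hyperplane of `X` at `T_v`, and that for one place `v` the quadric has rank at least five. Then the
closure of `X(ℚ)` is a neighbourhood of `T` in the product of `X(ℝ)` and of the `X(ℚ_p)`. In
particular, if one rational point of `X` has these properties, then the rational points are dense in a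
nonempty open subset of this product, so they are Zariski dense.

Idea of the proof. Let `x` be a rational point close to `T`. The lines through `x` with contact of
order at least three correspond to the rational points of a quadric of rank at least five, and this
quadric has weak approximation by the theorems of Meyer and Hasse-Minkowski; such a line meets `X` in
one further point, which is rational. So the closure of the rational points is stable under the
replacement of a local point by the further points of such lines, which can be chosen independently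
at the places. When the line approaches one with contact of order four, then the further point
approaches `T_v`; by moving successively along lines close to `N` lines with contact of order four
which span the tangent hyperplane, one can reach all the points of a neighbourhood of `T_v`, by the
implicit function theorem.

(In the formal statement we work with the affine cone over `X`.)
-/

set_option autoImplicit false

namespace Pool.Agent.Results.MP_12adaf_nt.QuarticHypersurfaces

open Topology Matrix

/-- The polarization `F(x, y, z, w)` of the quartic form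
`F(x, x, x, x) = ∑ c_{ijkl} x_i x_j x_k x_l`. -/
def pol {K : Type} [Field K] {N : ℕ} (c : Fin N → Fin N → Fin N → Fin N → K)
    (x y z w : Fin N → K) : K :=
  ∑ i, ∑ j, ∑ k, ∑ l, c i j k l * x i * y j * z k * w l

/-- The coefficients are symmetric. (Every quartic form in characteristic zero has exactly one
system of symmetric coefficients.) -/
def IsSymmetric {K : Type} {N : ℕ} (c : Fin N → Fin N → Fin N → Fin N → K) : Prop :=
  ∀ i j k l, c j i k l = c i j k l ∧ c i k j l = c i j k l ∧ c i j l k = c i j k l

/-- The line through `T` in the direction `u` has contact of order exactly four with the quartic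
hypersurface at `T`, and `u` is a simple solution of the equations `F(T, T, T, u) = 0`,
`F(T, T, u, u) = 0`, `F(T, u, u, u) = 0`: their differentials with respect to `u`, which are up to
nonzero factors the linear forms `F(T, T, T, w)`, `F(T, T, u, w)` and `F(T, u, u, w)`, are linearly
independent, that is, they take arbitrary values simultaneously. -/
structure FourfoldLine {K : Type} [Field K] {N : ℕ} (c : Fin N → Fin N → Fin N → Fin N → K)
    (T u : Fin N → K) : Prop where
  tangent : pol c T T T u = 0
  threefold : pol c T T u u = 0
  fourfold : pol c T u u u = 0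
  exact : pol c u u u u ≠ 0
  simple : ∀ a b d : K, ∃ w, pol c T T T w = a ∧ pol c T T u w = b ∧ pol c T u u w = d

/-- There are such lines, and they span, together with `T`, the tangent hyperplane at `T`. -/
def SpannedByFourfoldLines {K : Type} [Field K] {N : ℕ} (c : Fin N → Fin N → Fin N → Fin N → K)
    (T : Fin N → K) : Prop :=
  (∃ u, FourfoldLine c T u) ∧
    ∀ w, pol c T T T w = 0 → w ∈ Submodule.span K (insert T {u | FourfoldLine c T u})

/-- The quadratic form `F(T, T, u, u)` on the tangent hyperplane at `T` has rank at least five. -/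
def RankAtLeastFive {K : Type} [Field K] {N : ℕ} (c : Fin N → Fin N → Fin N → Fin N → K)
    (T : Fin N → K) : Prop :=
  ∃ w : Fin 5 → Fin N → K, (∀ i, pol c T T T (w i) = 0) ∧
    (Matrix.of fun i j => pol c T T (w i) (w j)).det ≠ 0

/-- The rational points of the cone over the quartic hypersurface, in the product of the real and
of the `p i`-adic affine spaces. -/
def RationalPoints {N : ℕ} (c : Fin N → Fin N → Fin N → Fin N → ℚ) {ι : Type} (p : ι → ℕ)
    [∀ i, Fact (p i).Prime] : Set ((Fin N → ℝ) × ∀ i, Fin N → ℚ_[p i]) :=
  {S | ∃ x : Fin N → ℚ, pol c x x x x = 0 ∧ S = (fun j => (x j : ℝ), fun i j => (x j : ℚ_[p i]))}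

/-- The image of the coefficients in a field which contains the rational numbers. -/
def image {N : ℕ} (c : Fin N → Fin N → Fin N → Fin N → ℚ) (L : Type) [Field L] :
    Fin N → Fin N → Fin N → Fin N → L :=
  fun i j k l => (c i j k l : L)

section aux

variable {L : Type} [NontriviallyNormedField L] [CharZero L] {N : ℕ}
  {c : Fin N → Fin N → Fin N → Fin N → L}

theorem good_of (hc : Pool.Agent.K7.H7.QF.Sym4 c) {T u : Fin N → L} (h : FourfoldLine c T u) :
    Pool.Agent.K7.H7.QF.Good (Pool.Agent.K7.H7.QF.quartic hc) T u := by
  refine ⟨?_, ?_, ?_, h.exact, ?_⟩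
  · rw [Pool.Agent.K7.H7.QF.quartic_H]
    funext k
    exact h.tangent
  · rw [Pool.Agent.K7.H7.QF.quartic_M]
    exact h.threefold
  · change 4 * pol c T u u u = 0
    rw [h.fourfold, mul_zero]
  · rintro ⟨z1, z2, z3⟩
    obtain ⟨w, h1, h2, h3⟩ := h.simple (z1 0) z2 (z3 / 12)
    refine ⟨w, Prod.ext ?_ (Prod.ext ?_ ?_)⟩
    · change (Pool.Agent.K7.H7.QF.quartic hc).H T *ᵥ w = z1
      rw [Pool.Agent.K7.H7.QF.quartic_H]
      funext k
      rw [Subsingleton.elim k 0]
      exact h1
    · change u ⬝ᵥ (Pool.Agent.K7.H7.QF.quartic hc).M T *ᵥ w = z2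
      rw [Pool.Agent.K7.H7.QF.quartic_M]
      exact h2
    · change 12 * pol c T u u w = z3
      rw [h3]
      field_simp

theorem spanned_of (hc : Pool.Agent.K7.H7.QF.Sym4 c) {T : Fin N → L} (h : SpannedByFourfoldLines c T) :
    Pool.Agent.K7.H7.QF.Spanned (Pool.Agent.K7.H7.QF.quartic hc) T := by
  refine ⟨?_, fun w hw => ?_⟩
  · obtain ⟨u, hu⟩ := h.1
    exact ⟨u, good_of hc hu⟩
  · rw [Pool.Agent.K7.H7.QF.fderiv_quartic] at hw
    have h1 : 4 * pol c T T T w = 0 := congrFun hw 0
    have h2 : pol c T T T w = 0 := by
      rcases mul_eq_zero.1 h1 with h3 | h3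
      · exact absurd h3 (by norm_num)
      · exact h3
    exact Submodule.span_mono (Set.insert_subset_insert fun u hu => good_of hc hu) (h.2 w h2)

omit [CharZero L] in
theorem rk_of (hc : Pool.Agent.K7.H7.QF.Sym4 c) {T : Fin N → L} (h : SpannedByFourfoldLines c T)
    (hr : RankAtLeastFive c T) : Pool.Agent.K7.H7.QF.Rk (Pool.Agent.K7.H7.QF.quartic hc) T := by
  obtain ⟨w, hw1, hw2⟩ := hr
  refine ⟨fun z => ?_, w, fun i => ?_, ?_⟩
  · obtain ⟨u, hu⟩ := h.1
    obtain ⟨y, hy, -⟩ := hu.simple (z 0) 0 0
    refine ⟨y, ?_⟩
    change (Pool.Agent.K7.H7.QF.quartic hc).H T *ᵥ y = z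
    rw [Pool.Agent.K7.H7.QF.quartic_H]
    funext k
    rw [Subsingleton.elim k 0]
    exact hy
  · rw [Pool.Agent.K7.H7.QF.quartic_H]
    funext k
    exact hw1 i
  · simp_rw [Pool.Agent.K7.H7.QF.quartic_M]
    exact hw2

end aux

/-- **Main result.** -/
theorem result (N : ℕ) (c : Fin N → Fin N → Fin N → Fin N → ℚ) (hc : IsSymmetric c)
    -- a finite set of primes
    (ι : Type) [Finite ι] (p : ι → ℕ) [∀ i, Fact (p i).Prime] (hp : Function.Injective p)
    -- a limit of rational points
    (T : (Fin N → ℝ) × ∀ i, Fin N → ℚ_[p i]) (hT : T ∈ closure (RationalPoints c p))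
    -- the lines with contact of order four span the tangent hyperplanes
    (hreal : SpannedByFourfoldLines (image c ℝ) T.1)
    (hpadic : ∀ i, SpannedByFourfoldLines (image c ℚ_[p i]) (T.2 i))
    -- the rank of the quadratic form of one of the places is at least five
    (hrank : RankAtLeastFive (image c ℝ) T.1 ∨ ∃ i, RankAtLeastFive (image c ℚ_[p i]) (T.2 i)) :
    -- all the local points close to `T` are limits of rational points
    ∃ U ∈ 𝓝 T, ∀ x ∈ U, pol (image c ℝ) x.1 x.1 x.1 x.1 = 0 →
      (∀ i, pol (image c ℚ_[p i]) (x.2 i) (x.2 i) (x.2 i) (x.2 i) = 0) →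
      x ∈ closure (RationalPoints c p) := by
  have e1 : RationalPoints c p =
      Pool.Agent.K7.H7.QF.ratPts p (Pool.Agent.K7.H7.QF.quartic hc) := by
    ext S
    constructor
    · rintro ⟨x, hx, rfl⟩
      exact ⟨x, funext fun _ => hx, rfl⟩
    · rintro ⟨x, hx, rfl⟩
      exact ⟨x, congrFun hx 0, rfl⟩
  rw [e1] at hT ⊢
  have sR : Pool.Agent.K7.H7.QF.Sym4 (image c ℝ) := Pool.Agent.K7.H7.QF.sym_map (Rat.castHom ℝ) hc
  have sp : ∀ i, Pool.Agent.K7.H7.QF.Sym4 (image c ℚ_[p i]) := fun i =>
    Pool.Agent.K7.H7.QF.sym_map (Rat.castHom ℚ_[p i]) hc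
  obtain ⟨U, hU, h⟩ := Pool.Agent.K7.H7.QF.interior_concrete p hp
    (D0 := Pool.Agent.K7.H7.QF.quartic hc) (DR := Pool.Agent.K7.H7.QF.quartic sR)
    (Dp := fun i => Pool.Agent.K7.H7.QF.quartic (sp i))
    (Pool.Agent.K7.H7.QF.ana_quartic sR) (fun i => Pool.Agent.K7.H7.QF.ana_quartic (sp i))
    (Pool.Agent.K7.H7.QF.compat_quartic (Rat.castHom ℝ) hc)
    (fun i => Pool.Agent.K7.H7.QF.compat_quartic (Rat.castHom ℚ_[p i]) hc) hT
    (spanned_of sR hreal) (fun i => spanned_of (sp i) (hpadic i))
    (hrank.imp (rk_of sR hreal) (fun ⟨i, hi⟩ => ⟨i, rk_of (sp i) (hpadic i) hi⟩))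
  exact ⟨U, hU, fun x hx h1 h2 => h x hx (funext fun _ => h1) fun i => funext fun _ => h2 i⟩

end Pool.Agent.Results.MP_12adaf_nt.QuarticHypersurfaces
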